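import Pool.Agent.H851R3.Fac7

set_option autoImplicit false

namespace Pool.Agent.Results.MP_15e1ec_an.FactorizationNotUniform

/-- The factorization property of a Schauder basis: the identity factors through every operator
whose diagonal with respect to the basis is bounded away from zero. -/
def FactorizationProperty {X : Type} [NormedAddCommGroup X] [NormedSpace ℝ X]
    (e : SchauderBasis ℝ X) : Prop :=
  ∀ T : X →L[ℝ] X, (∃ δ : ℝ, 0 < δ ∧ ∀ n, δ ≤ |e.coord n (T (e n))|) →
    ∃ S R : X →L[ℝ] X, S.comp (T.comp R) = ContinuousLinearMap.id ℝ X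

/-- The uniform factorization property of a Schauder basis. -/
def UniformFactorizationProperty {X : Type} [NormedAddCommGroup X] [NormedSpace ℝ X]
    (e : SchauderBasis ℝ X) : Prop :=
  ∀ δ : ℝ, 0 < δ → ∃ K : ℝ, 1 ≤ K ∧
    ∀ T : X →L[ℝ] X, (∀ n, δ ≤ |e.coord n (T (e n))|) →
      ∀ ε : ℝ, 0 < ε → ∃ S R : X →L[ℝ] X,
        S.comp (T.comp R) = ContinuousLinearMap.id ℝ X ∧ ‖R‖ * ‖S‖ ≤ K + ε

theorem result : ∃ (X : Type) (_ : NormedAddCommGroup X) (_ : NormedSpace ℝ X)
    (_ : CompleteSpace X) (e : SchauderBasis ℝ X),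
    (∀ n, ‖e n‖ = 1) ∧ FactorizationProperty e ∧ ¬ UniformFactorizationProperty e := by
  refine ⟨Pool.Agent.H851R3.Fac.X, inferInstance, inferInstance, inferInstance,
    Pool.Agent.H851R3.Fac.bas, Pool.Agent.H851R3.Fac.bas_norm, ?_, ?_⟩
  · rintro T ⟨δ, hδ, h⟩
    refine Pool.Agent.H851R3.Fac.fp T hδ ?_
    intro k i b
    cases b
    · rw [← Pool.Agent.H851R3.Fac.bas_even]; exact h _
    · rw [← Pool.Agent.H851R3.Fac.bas_odd]; exact h _
  · intro hU
    obtain ⟨K, _, hK⟩ := hU 1 one_pos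
    obtain ⟨k, hk⟩ := exists_nat_gt K
    obtain ⟨S, R, h1, h2⟩ := hK (Pool.Agent.H851R3.Fac.Tb k) (fun n => by
      rcases Nat.even_or_odd' n with ⟨m, rfl | rfl⟩
      · have := Pool.Agent.H851R3.Fac.bas_even (Nat.unpair m).1 (Nat.unpair m).2
          (Pool.Agent.H851R3.Fac.Tb k)
        rw [Nat.pair_unpair] at this
        rw [this]
        exact Pool.Agent.H851R3.Fac.Tb_diag _ _ _ _
      · have := Pool.Agent.H851R3.Fac.bas_odd (Nat.unpair m).1 (Nat.unpair m).2
          (Pool.Agent.H851R3.Fac.Tb k)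
        rw [Nat.pair_unpair] at this
        rw [this]
        exact Pool.Agent.H851R3.Fac.Tb_diag _ _ _ _) (1 / 2) (by norm_num)
    have := Pool.Agent.H851R3.Fac.bad k h1 h2
    linarith

end Pool.Agent.Results.MP_15e1ec_an.FactorizationNotUniform
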